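import Pool.Agent.helper75.PSA.Spec

/-! # Project psa, row KRO: Kronecker's theorem for the powers of a point of the torus -/

set_option autoImplicit false

open Polynomial Finset

noncomputable section

namespace Pool.Agent.PSA

open MeasureTheory Filter Topology UnitAddTorus

/-- Haar probability measure on the torus. -/
abbrev KRO_m (k : ℕ) : Measure (UnitAddTorus (Fin k)) :=
  Measure.pi (fun _ : Fin k => AddCircle.haarAddCircle (T := (1:ℝ)))

lemma KRO_int0 (n : ℤ) (hn : n ≠ 0) :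
    ∫ x : UnitAddCircle, (fourier n x : ℂ) ∂(AddCircle.haarAddCircle) = 0 := by
  have := fourier_add_half_inv_index (T := (1:ℝ)) hn one_pos
  exact integral_eq_zero_of_add_right_eq_neg this

lemma KRO_int1 {k : ℕ} (n : Fin k → ℤ) (hn : n ≠ 0) :
    ∫ x, (mFourier n x : ℂ) ∂(KRO_m k) = 0 := by
  obtain ⟨i, hi⟩ := Function.ne_iff.mp hn
  have : ∫ x, (mFourier n x : ℂ) ∂(KRO_m k)
      = ∏ i, ∫ x : UnitAddCircle, (fourier (n i) x : ℂ) ∂(AddCircle.haarAddCircle) := by
    rw [← integral_fintype_prod_eq_prod]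
    rfl
  rw [this]
  exact Finset.prod_eq_zero (Finset.mem_univ i) (KRO_int0 _ hi)

/-- the point of the additive torus -/
def KRO_pt {k : ℕ} (w : Fin k → Circle) (N : ℕ) : UnitAddTorus (Fin k) :=
  fun i => (((N : ℝ) * (Complex.arg (w i) / (2 * Real.pi)) : ℝ) : UnitAddCircle)

lemma KRO_four {k : ℕ} (w : Fin k → Circle) (n : Fin k → ℤ) (N : ℕ) :
    mFourier n (KRO_pt w N) = (((∏ j, w j ^ n j : Circle) : ℂ)) ^ N := by
  have hw : ∀ i, ((w i : Circle) : ℂ) = Complex.exp ((Complex.arg (w i) : ℂ) * Complex.I) := by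
    intro i
    have h1 := Complex.norm_mul_exp_arg_mul_I (w i : ℂ)
    rw [Circle.norm_coe] at h1
    simpa using h1.symm
  have h1 : (((∏ j, w j ^ n j : Circle) : ℂ)) = ∏ j, ((w j : ℂ)) ^ n j := by
    rw [← Circle.coeHom_apply, map_prod]
    refine Finset.prod_congr rfl fun j _ => ?_
    rw [Circle.coeHom_apply, Circle.coe_zpow]
  rw [h1, ← Finset.prod_pow]
  unfold mFourier KRO_pt
  simp only [ContinuousMap.coe_mk, fourier_coe_apply]
  refine Finset.prod_congr rfl fun i _ => ?_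
  rw [hw i, ← Complex.exp_int_mul, ← Complex.exp_nat_mul]
  have hpi : (Real.pi : ℂ) ≠ 0 := by exact_mod_cast Real.pi_ne_zero
  congr 1
  push_cast
  rw [← hw i]
  field_simp

lemma KRO_mean {k : ℕ} (w : Fin k → Circle) (hw : Indep w) (F : C(UnitAddTorus (Fin k), ℂ))
    (hF : F ∈ Submodule.span ℂ (Set.range (mFourier (d := Fin k)))) :
    Tendsto (fun X : ℕ => ((X : ℂ))⁻¹ * ∑ N ∈ range X, F (KRO_pt w N)) atTop
      (𝓝 (∫ x, F x ∂(KRO_m k))) := by
  induction hF using Submodule.span_induction with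
  | mem F hF =>
    obtain ⟨n, rfl⟩ := hF
    by_cases hn : n = 0
    · subst hn
      have h1 : (∫ x, (mFourier (0 : Fin k → ℤ) x : ℂ) ∂(KRO_m k)) = 1 := by
        simp [mFourier_zero]
      rw [h1]
      refine tendsto_const_nhds.congr' ?_
      filter_upwards [eventually_gt_atTop 0] with X hX
      simp only [mFourier_zero, ContinuousMap.one_apply, sum_const, card_range, nsmul_eq_mul,
        mul_one]
      have : (X : ℂ) ≠ 0 := by exact_mod_cast hX.ne'
      field_simp
    · rw [KRO_int1 n hn]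
      set ζ : ℂ := ((∏ j, w j ^ n j : Circle) : ℂ) with hζ
      have hζ1 : ζ ≠ 1 := by
        intro h
        apply hn
        apply hw n
        apply Circle.ext
        rw [Circle.coe_one]
        exact h
      have hζn : ‖ζ‖ = 1 := Circle.norm_coe _
      simp_rw [KRO_four]
      rw [tendsto_zero_iff_norm_tendsto_zero]
      have h0 : 0 < ‖ζ - 1‖ := norm_pos_iff.2 (sub_ne_zero.2 hζ1)
      have hb : ∀ X : ℕ, ‖((X : ℂ))⁻¹ * ∑ N ∈ range X, ζ ^ N‖ ≤ (2 / ‖ζ - 1‖) * ((X : ℝ))⁻¹ := by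
        intro X
        rw [geom_sum_eq hζ1, norm_mul, norm_div, norm_inv, Complex.norm_natCast]
        have h2 : ‖ζ ^ X - 1‖ ≤ 2 := by
          refine (norm_sub_le _ _).trans ?_
          rw [norm_pow, hζn]
          norm_num
        have h3 : ‖ζ ^ X - 1‖ / ‖ζ - 1‖ ≤ 2 / ‖ζ - 1‖ := by gcongr
        calc ((X : ℝ))⁻¹ * (‖ζ ^ X - 1‖ / ‖ζ - 1‖) ≤ ((X : ℝ))⁻¹ * (2 / ‖ζ - 1‖) := by gcongr
          _ = _ := by ring
      refine squeeze_zero (fun X => norm_nonneg _) hb ?_
      have h5 := (tendsto_inv_atTop_nhds_zero_nat (𝕜 := ℝ)).const_mul (2 / ‖ζ - 1‖)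
      simpa using h5
  | zero => simp
  | add F G _ _ hF hG =>
    have h1 : (∫ x, (F + G) x ∂(KRO_m k)) = (∫ x, F x ∂(KRO_m k)) + ∫ x, G x ∂(KRO_m k) := by
      simp only [ContinuousMap.add_apply]
      rw [integral_add]
      · exact F.continuous.integrable_of_hasCompactSupport (HasCompactSupport.of_compactSpace _)
      · exact G.continuous.integrable_of_hasCompactSupport (HasCompactSupport.of_compactSpace _)
    rw [h1]
    refine (hF.add hG).congr fun X => ?_
    simp only [ContinuousMap.add_apply]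
    rw [sum_add_distrib]
    ring
  | smul a F _ hF =>
    have h1 : (∫ x, (a • F) x ∂(KRO_m k)) = a * ∫ x, F x ∂(KRO_m k) := by
      simp only [ContinuousMap.smul_apply, smul_eq_mul]
      rw [integral_const_mul]
    rw [h1]
    refine (hF.const_mul a).congr fun X => ?_
    simp only [ContinuousMap.smul_apply, smul_eq_mul]
    rw [← mul_sum]
    ring

/-- the map to the multiplicative torus -/
def KRO_Phi {k : ℕ} (x : UnitAddTorus (Fin k)) : Fin k → Circle :=
  fun i => AddCircle.toCircle (x i)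

lemma KRO_Phi_cont {k : ℕ} : Continuous (KRO_Phi (k := k)) := by
  unfold KRO_Phi
  refine continuous_pi fun i => ?_
  exact AddCircle.continuous_toCircle.comp (continuous_apply i)

lemma KRO_Phi_pt {k : ℕ} (w : Fin k → Circle) (N : ℕ) :
    KRO_Phi (KRO_pt w N) = fun j => w j ^ N := by
  funext j
  unfold KRO_Phi KRO_pt
  rw [AddCircle.toCircle_apply_mk]
  have h1 : 2 * Real.pi / 1 * ((N : ℝ) * (Complex.arg (w j) / (2 * Real.pi))) =
      N * Complex.arg (w j) := by
    have := Real.pi_ne_zero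
    field_simp
  rw [h1]
  apply Circle.ext
  rw [Circle.coe_pow, Circle.coe_exp]
  have h2 := Complex.norm_mul_exp_arg_mul_I (w j : ℂ)
  rw [Circle.norm_coe] at h2
  have h3 : ((w j : Circle) : ℂ) = Complex.exp ((Complex.arg (w j) : ℂ) * Complex.I) := by
    simpa using h2.symm
  rw [h3, ← Complex.exp_nat_mul]
  congr 1
  rw [← h3]
  push_cast
  ring

theorem KRO : KRO_stmt := by
  intro k w hw U hU hne
  by_contra hcon
  push Not at hcon
  obtain ⟨u, hu⟩ := hne
  have hUc : IsClosed Uᶜ := hU.isClosed_compl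
  have hUcne : Uᶜ.Nonempty := ⟨_, hcon 0⟩
  let b : UnitAddTorus (Fin k) → ℝ := fun x => Metric.infDist (KRO_Phi x) Uᶜ
  have hbc : Continuous b := (Metric.continuous_infDist_pt _).comp KRO_Phi_cont
  have hb0 : 0 ≤ b := fun x => Metric.infDist_nonneg
  have hpos : 0 < ∫ x, b x ∂(KRO_m k) := by
    refine hbc.integral_pos_of_hasCompactSupport_nonneg_nonzero (x := KRO_pt u 1)
      (HasCompactSupport.of_compactSpace _) hb0 ?_
    have h1 : KRO_Phi (KRO_pt u 1) = u := by
      rw [KRO_Phi_pt]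
      funext j
      rw [pow_one]
    have h2 : 0 < Metric.infDist (KRO_Phi (KRO_pt u 1)) Uᶜ := by
      rw [h1]
      exact (hUc.notMem_iff_infDist_pos hUcne).1 (fun h => h hu)
    exact h2.ne'
  set I := ∫ x, b x ∂(KRO_m k) with hI
  let B : C(UnitAddTorus (Fin k), ℂ) := ⟨fun x => (b x : ℂ), by fun_prop⟩
  have hBpath : ∀ N : ℕ, B (KRO_pt w N) = 0 := by
    intro N
    have h1 : KRO_Phi (KRO_pt w N) ∈ Uᶜ := by
      rw [KRO_Phi_pt]
      exact hcon N
    simp only [B, ContinuousMap.coe_mk, b]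
    rw [Metric.infDist_zero_of_mem h1, Complex.ofReal_zero]
  have hmem : B ∈ closure ((Submodule.span ℂ (Set.range (mFourier (d := Fin k)))) :
      Set C(UnitAddTorus (Fin k), ℂ)) := by
    have := span_mFourier_closure_eq_top (d := Fin k)
    have h2 : B ∈ (Submodule.span ℂ (Set.range <| mFourier (d := Fin k))).topologicalClosure := by
      rw [this]; trivial
    exact h2
  rw [Metric.mem_closure_iff] at hmem
  obtain ⟨Q, hQ, hBQ⟩ := hmem (I / 4) (by positivity)
  rw [dist_eq_norm] at hBQ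
  have hpt : ∀ x, ‖B x - Q x‖ ≤ I / 4 := fun x => by
    have := (B - Q).norm_coe_le_norm x
    simp only [ContinuousMap.sub_apply] at this
    exact this.trans hBQ.le
  have hlim := KRO_mean w hw Q hQ
  have hbound : ∀ᶠ X : ℕ in atTop, ‖((X : ℂ))⁻¹ * ∑ N ∈ range X, Q (KRO_pt w N)‖ ≤ I / 4 := by
    filter_upwards [eventually_gt_atTop 0] with X hX
    have hX0 : (0 : ℝ) < X := by exact_mod_cast hX
    have h3 : ‖∑ N ∈ range X, Q (KRO_pt w N)‖ ≤ X * (I / 4) := by
      refine (norm_sum_le _ _).trans ?_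
      refine (Finset.sum_le_card_nsmul _ _ (I / 4) fun N _ => ?_).trans ?_
      · have := hpt (KRO_pt w N)
        rw [hBpath N, zero_sub, norm_neg] at this
        exact this
      · rw [card_range, nsmul_eq_mul]
    rw [norm_mul, norm_inv, Complex.norm_natCast]
    calc ((X : ℝ))⁻¹ * ‖∑ N ∈ range X, Q (KRO_pt w N)‖ ≤ ((X : ℝ))⁻¹ * (X * (I / 4)) := by gcongr
      _ = I / 4 := by field_simp
  have hle : ‖∫ x, Q x ∂(KRO_m k)‖ ≤ I / 4 :=
    le_of_tendsto hlim.norm hbound
  have hdiff : ‖(∫ x, B x ∂(KRO_m k)) - ∫ x, Q x ∂(KRO_m k)‖ ≤ I / 4 := by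
    rw [← integral_sub]
    · refine (norm_integral_le_of_norm_le_const (C := I / 4) (Eventually.of_forall hpt)).trans ?_
      simp
    · exact B.continuous.integrable_of_hasCompactSupport (HasCompactSupport.of_compactSpace _)
    · exact Q.continuous.integrable_of_hasCompactSupport (HasCompactSupport.of_compactSpace _)
  have hBI : (∫ x, B x ∂(KRO_m k)) = (I : ℂ) := by
    simp only [B, ContinuousMap.coe_mk]
    exact integral_ofReal
  have h5 : ‖(I : ℂ)‖ ≤ I / 4 + I / 4 := by
    rw [← hBI]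
    calc ‖∫ x, B x ∂(KRO_m k)‖
        = ‖((∫ x, B x ∂(KRO_m k)) - ∫ x, Q x ∂(KRO_m k)) + ∫ x, Q x ∂(KRO_m k)‖ := by
          congr 1; ring
      _ ≤ _ := (norm_add_le _ _).trans (add_le_add hdiff hle)
  rw [Complex.norm_real, Real.norm_eq_abs, abs_of_pos hpos] at h5
  linarith

end Pool.Agent.PSA
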