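import Pool.Agent.helper75.PSA.Spec

/-! # Project psa, row TRG: root location by sign changes -/

set_option autoImplicit false

open Polynomial Finset

noncomputable section

namespace Pool.Agent.PSA

/-- the cosine polynomial -/
def TRG_f (k : ℕ) (P : ℝ[X]) (φ : ℝ) : ℝ :=
  ∑ i ∈ range (2 * k + 3), P.coeff i * Real.cos (((i : ℝ) - (k + 1)) * φ)

lemma TRG_eval (k : ℕ) (P : ℝ[X]) (hd : P.natDegree = 2 * k + 2)
    (hs : ∀ i : ℕ, i ≤ 2 * k + 2 → P.coeff (2 * k + 2 - i) = P.coeff i) (φ : ℝ) :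
    (P.map (algebraMap ℝ ℂ)).eval (Complex.exp (φ * Complex.I)) =
      Complex.exp (((k + 1 : ℝ) * φ : ℝ) * Complex.I) * (TRG_f k P φ : ℂ) := by
  have h1 : ∑ i ∈ range (2 * k + 3), P.coeff i * Real.sin (((i : ℝ) - (k + 1)) * φ) = 0 := by
    have h2 := Finset.sum_range_reflect
      (fun i : ℕ => P.coeff i * Real.sin (((i : ℝ) - (k + 1)) * φ)) (2 * k + 3)
    have h3 : ∑ i ∈ range (2 * k + 3), (fun i : ℕ => P.coeff i *
        Real.sin (((i : ℝ) - (k + 1)) * φ)) (2 * k + 3 - 1 - i) =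
        ∑ i ∈ range (2 * k + 3), -(P.coeff i * Real.sin (((i : ℝ) - (k + 1)) * φ)) := by
      refine Finset.sum_congr rfl fun i hi => ?_
      have hi2 : i ≤ 2 * k + 2 := by
        have := Finset.mem_range.1 hi
        omega
      have e1 : 2 * k + 3 - 1 - i = 2 * k + 2 - i := by omega
      show P.coeff (2 * k + 3 - 1 - i) * Real.sin (((2 * k + 3 - 1 - i : ℕ) - (k + 1) : ℝ) * φ) = _
      rw [e1, hs i hi2, Nat.cast_sub hi2]
      have e2 : ((2 * k + 2 : ℕ) - (i : ℝ) - (k + 1)) * φ = -(((i : ℝ) - (k + 1)) * φ) := by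
        push_cast
        ring
      rw [e2, Real.sin_neg]
      ring
    rw [h3, Finset.sum_neg_distrib] at h2
    linarith
  have h4 : Complex.exp (((k + 1 : ℝ) * φ : ℝ) * Complex.I) * (TRG_f k P φ : ℂ) =
      Complex.exp (((k + 1 : ℝ) * φ : ℝ) * Complex.I) * ((TRG_f k P φ : ℂ) +
        ((∑ i ∈ range (2 * k + 3), P.coeff i * Real.sin (((i : ℝ) - (k + 1)) * φ) : ℝ) : ℂ) *
          Complex.I) := by
    rw [h1]
    simp
  rw [h4]
  unfold TRG_f
  rw [Polynomial.eval_eq_sum_range' (n := 2 * k + 3)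
    (by rw [Polynomial.natDegree_map]; omega)]
  push_cast
  rw [Finset.sum_mul, ← Finset.sum_add_distrib, Finset.mul_sum]
  refine Finset.sum_congr rfl fun i _ => ?_
  rw [Polynomial.coeff_map]
  show (P.coeff i : ℂ) * _ = _
  have e3 : (P.coeff i : ℂ) * Complex.cos (((i : ℂ) - (k + 1)) * φ) +
      (P.coeff i : ℂ) * Complex.sin (((i : ℂ) - (k + 1)) * φ) * Complex.I =
      (P.coeff i : ℂ) * Complex.exp ((((i : ℂ) - (k + 1)) * φ) * Complex.I) := by
    rw [Complex.exp_mul_I]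
    ring
  rw [e3, ← Complex.exp_nat_mul]
  have e4 : Complex.exp (((k : ℂ) + 1) * φ * Complex.I) *
      Complex.exp ((((i : ℂ) - (k + 1)) * φ) * Complex.I) =
      Complex.exp ((i : ℂ) * (φ * Complex.I)) := by
    rw [← Complex.exp_add]
    congr 1
    ring
  rw [← e4]
  ring

lemma TRG_cont (k : ℕ) (P : ℝ[X]) : Continuous (TRG_f k P) := by
  unfold TRG_f
  fun_prop

lemma TRG_inv (k : ℕ) (P : ℝ[X]) (hd : P.natDegree = 2 * k + 2)
    (hs : ∀ i : ℕ, i ≤ 2 * k + 2 → P.coeff (2 * k + 2 - i) = P.coeff i) (x : ℝ) (hx : x ≠ 0)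
    (h : P.eval x = 0) : P.eval x⁻¹ = 0 := by
  have h1 : x ^ (2 * k + 2) * P.eval x⁻¹ = P.eval x := by
    rw [Polynomial.eval_eq_sum_range' (n := 2 * k + 3) (by omega) x⁻¹,
      Polynomial.eval_eq_sum_range' (n := 2 * k + 3) (by omega) x, Finset.mul_sum,
      ← Finset.sum_range_reflect (fun i => P.coeff i * x ^ i)]
    refine Finset.sum_congr rfl fun i hi => ?_
    have hi2 : i ≤ 2 * k + 2 := by
      have := Finset.mem_range.1 hi
      omega
    have e1 : 2 * k + 3 - 1 - i = 2 * k + 2 - i := by omega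
    rw [e1, hs i hi2]
    have e2 : x ^ (2 * k + 2) = x ^ (2 * k + 2 - i) * x ^ i := by
      rw [← pow_add]
      congr 1
      omega
    rw [e2]
    have e3 : x ^ i * (x⁻¹) ^ i = 1 := by
      rw [← mul_pow, mul_inv_cancel₀ hx, one_pow]
    linear_combination (P.coeff i * x ^ (2 * k + 2 - i)) * e3
  rw [h] at h1
  exact (mul_eq_zero.1 h1).resolve_left (pow_ne_zero _ hx)

theorem TRG (hQQC : QQC_stmt) : TRG_stmt := by
  intro k P hk hm hd hs hsg
  have hk0 : (0 : ℝ) < k := by exact_mod_cast hk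
  have hpi := Real.pi_pos
  -- the angles
  have hθ : ∀ j : Fin k, ∃ θ : ℝ, Real.pi * (j : ℕ) / k < θ ∧ θ < Real.pi * ((j : ℕ) + 1 : ℕ) / k ∧
      TRG_f k P θ = 0 := by
    intro j
    have h1 := hsg j j.2.le
    have h2 := hsg ((j : ℕ) + 1) j.2
    have hab : Real.pi * (j : ℕ) / k ≤ Real.pi * ((j : ℕ) + 1 : ℕ) / k := by
      gcongr
      exact Nat.le_succ _
    have hc : ContinuousOn (fun x => (-1 : ℝ) ^ (j : ℕ) * TRG_f k P x)
        (Set.Icc (Real.pi * (j : ℕ) / k) (Real.pi * ((j : ℕ) + 1 : ℕ) / k)) :=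
      (continuous_const.mul (TRG_cont k P)).continuousOn
    have h3 := intermediate_value_Ioo hab hc
    have h4 : (0 : ℝ) ∈ Set.Ioo ((-1 : ℝ) ^ (j : ℕ) * TRG_f k P (Real.pi * (j : ℕ) / k))
        ((-1 : ℝ) ^ (j : ℕ) * TRG_f k P (Real.pi * ((j : ℕ) + 1 : ℕ) / k)) := by
      constructor
      · exact h1
      · have h5 : (-1 : ℝ) ^ ((j : ℕ) + 1) * TRG_f k P (Real.pi * ((j : ℕ) + 1 : ℕ) / k) < 0 := h2
        rw [pow_succ] at h5
        linarith
    obtain ⟨θ, hθ, hθ0⟩ := h3 h4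
    refine ⟨θ, hθ.1, hθ.2, ?_⟩
    exact (mul_eq_zero.1 hθ0).resolve_left (pow_ne_zero _ (by norm_num))
  choose θ hθ1 hθ2 hθ3 using hθ
  have hθ0 : ∀ j, 0 < θ j := fun j => lt_of_le_of_lt (by positivity) (hθ1 j)
  have hθpi : ∀ j, θ j < Real.pi := by
    intro j
    refine lt_of_lt_of_le (hθ2 j) ?_
    rw [div_le_iff₀ hk0]
    have : (((j : ℕ) + 1 : ℕ) : ℝ) ≤ k := by exact_mod_cast j.2
    gcongr
  have hθlt : ∀ j j' : Fin k, (j : ℕ) < j' → θ j < θ j' := by
    intro j j' hjj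
    refine (hθ2 j).trans (lt_of_le_of_lt ?_ (hθ1 j'))
    gcongr
    exact hjj
  have hθinj : ∀ j j' : Fin k, θ j = θ j' → j = j' := by
    intro j j' h
    rcases lt_trichotomy (j : ℕ) j' with h1 | h1 | h1
    · exact absurd h (hθlt j j' h1).ne
    · exact Fin.ext h1
    · exact absurd h (hθlt j' j h1).ne'
  -- the real root
  have hf0 : P.eval 1 < 0 := by
    have h1 := hsg 0 (Nat.zero_le _)
    rw [Polynomial.eval_eq_sum_range' (n := 2 * k + 3) (by omega)]
    simpa using h1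
  obtain ⟨Λ, hΛ1, hΛ0⟩ : ∃ Λ : ℝ, 1 < Λ ∧ P.eval Λ = 0 := by
    have hdeg : 0 < P.degree := by
      rw [Polynomial.degree_eq_natDegree hm.ne_zero, hd]
      exact_mod_cast (by omega : 0 < 2 * k + 2)
    have h1 := P.tendsto_atTop_of_leadingCoeff_nonneg hdeg (by rw [hm.leadingCoeff]; norm_num)
    obtain ⟨b, hb1, hb2⟩ := ((h1.eventually_gt_atTop 0).and
      (Filter.eventually_gt_atTop (1 : ℝ))).exists
    have h2 := intermediate_value_Ioo hb2.le (f := fun x => P.eval x) P.continuous.continuousOn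
    obtain ⟨Λ, h3, h4⟩ := h2 ⟨hf0, hb1⟩
    exact ⟨Λ, h3.1, h4⟩
  have hΛpos : 0 < Λ := by linarith
  have hΛ2 : P.eval Λ⁻¹ = 0 := TRG_inv k P hd hs Λ hΛpos.ne' hΛ0
  -- the roots
  set w : Fin k → Circle := fun j => Circle.exp (θ j) with hw
  have hwc : ∀ j, (w j : ℂ) = Complex.exp (θ j * Complex.I) := fun j => Circle.coe_exp _
  have hwinv : ∀ j, ((w j : ℂ))⁻¹ = Complex.exp ((-θ j : ℝ) * Complex.I) := by
    intro j
    rw [hwc, ← Complex.exp_neg]
    congr 1
    push_cast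
    ring
  have hre : ∀ j, (w j : ℂ).re = Real.cos (θ j) := fun j => by
    rw [hwc, Complex.exp_ofReal_mul_I_re]
  have him : ∀ j, (w j : ℂ).im = Real.sin (θ j) := fun j => by
    rw [hwc, Complex.exp_ofReal_mul_I_im]
  have hre' : ∀ j, ((w j : ℂ)⁻¹).re = Real.cos (θ j) := fun j => by
    rw [hwinv, Complex.exp_ofReal_mul_I_re, Real.cos_neg]
  have him' : ∀ j, ((w j : ℂ)⁻¹).im = -Real.sin (θ j) := fun j => by
    rw [hwinv, Complex.exp_ofReal_mul_I_im, Real.sin_neg]
  have hsin : ∀ j, 0 < Real.sin (θ j) := fun j => Real.sin_pos_of_pos_of_lt_pi (hθ0 j) (hθpi j)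
  have hcos : ∀ j j', Real.cos (θ j) = Real.cos (θ j') → j = j' := by
    intro j j' h
    apply hθinj
    exact Real.injOn_cos ⟨(hθ0 j).le, (hθpi j).le⟩ ⟨(hθ0 j').le, (hθpi j').le⟩ h
  let r : (Fin k × Bool) ⊕ Bool → ℂ := fun x => match x with
    | Sum.inl (j, true) => (w j : ℂ)
    | Sum.inl (j, false) => ((w j : ℂ))⁻¹
    | Sum.inr true => (Λ : ℂ)
    | Sum.inr false => ((Λ⁻¹ : ℝ) : ℂ)
  have hinj : Function.Injective r := by
    rintro (⟨j, b⟩ | b) (⟨j', b'⟩ | b') h
    · cases b <;> cases b'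
      · have h1 := congrArg Complex.re h
        simp only [r, hre'] at h1
        rw [hcos j j' h1]
      · exfalso
        have h1 := congrArg Complex.im h
        simp only [r, him', him] at h1
        have := hsin j
        have := hsin j'
        linarith
      · exfalso
        have h1 := congrArg Complex.im h
        simp only [r, him', him] at h1
        have := hsin j
        have := hsin j'
        linarith
      · have h1 := congrArg Complex.re h
        simp only [r, hre] at h1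
        rw [hcos j j' h1]
    · exfalso
      have h1 := congrArg Complex.im h
      have := hsin j
      cases b <;> cases b' <;> simp only [r, him', him, Complex.ofReal_im] at h1 <;> linarith
    · exfalso
      have h1 := congrArg Complex.im h
      have := hsin j'
      cases b <;> cases b' <;> simp only [r, him', him, Complex.ofReal_im] at h1 <;> linarith
    · have h3 : Λ⁻¹ < 1 := inv_lt_one_of_one_lt₀ hΛ1
      cases b <;> cases b'
      · rfl
      · exfalso
        have h1 := congrArg Complex.re h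
        simp only [r, Complex.ofReal_re] at h1
        linarith
      · exfalso
        have h1 := congrArg Complex.re h
        simp only [r, Complex.ofReal_re] at h1
        linarith
      · rfl
  have hroot : ∀ x, (P.map (algebraMap ℝ ℂ)).IsRoot (r x) := by
    have hE : ∀ φ : ℝ, TRG_f k P φ = 0 →
        (P.map (algebraMap ℝ ℂ)).eval (Complex.exp (φ * Complex.I)) = 0 := by
      intro φ hφ
      rw [TRG_eval k P hd hs φ, hφ]
      simp
    have hneg : ∀ φ : ℝ, TRG_f k P (-φ) = TRG_f k P φ := by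
      intro φ
      unfold TRG_f
      refine Finset.sum_congr rfl fun i _ => ?_
      rw [mul_neg, Real.cos_neg]
    have hreal : ∀ x : ℝ, P.eval x = 0 → (P.map (algebraMap ℝ ℂ)).eval (x : ℂ) = 0 := by
      intro x hx
      have h1 := Polynomial.eval_map_algebraMap P (x : ℂ)
      rw [h1]
      have h2 : aeval ((x : ℝ) : ℂ) P = ((P.eval x : ℝ) : ℂ) := by
        have h3 := Polynomial.aeval_algebraMap_apply ℂ x P
        rw [Polynomial.coe_aeval_eq_eval] at h3
        exact h3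
      rw [h2, hx, Complex.ofReal_zero]
    rintro (⟨j, b⟩ | b)
    · cases b
      · show (P.map (algebraMap ℝ ℂ)).eval ((w j : ℂ)⁻¹) = 0
        rw [hwinv]
        exact hE _ (by rw [hneg, hθ3])
      · show (P.map (algebraMap ℝ ℂ)).eval (w j : ℂ) = 0
        rw [hwc]
        exact hE _ (hθ3 j)
    · cases b
      · exact hreal _ hΛ2
      · exact hreal _ hΛ0
  have hdvd : ∏ x, (X - C (r x)) ∣ P.map (algebraMap ℝ ℂ) := by
    apply Finset.prod_dvd_of_coprime
    · intro x _ y _ hxy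
      exact Polynomial.pairwise_coprime_X_sub_C hinj hxy
    · intro x _
      exact Polynomial.dvd_iff_isRoot.2 (hroot x)
  have hmon : (∏ x, (X - C (r x))).Monic := Polynomial.monic_prod_of_monic _ _
    (fun x _ => Polynomial.monic_X_sub_C _)
  have hdeg2 : (∏ x, (X - C (r x))).natDegree = 2 * k + 2 := by
    rw [Polynomial.natDegree_prod_of_monic _ _ (fun x _ => Polynomial.monic_X_sub_C _)]
    simp only [Polynomial.natDegree_X_sub_C, Finset.sum_const, Finset.card_univ, smul_eq_mul,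
      mul_one, Fintype.card_sum, Fintype.card_prod, Fintype.card_fin, Fintype.card_bool]
    ring
  have heq : ∏ x, (X - C (r x)) = P.map (algebraMap ℝ ℂ) := by
    refine (Polynomial.eq_of_monic_of_dvd_of_natDegree_le hmon (hm.map _) hdvd ?_).symm
    rw [Polynomial.natDegree_map, hd, hdeg2]
  refine ⟨Λ, w, hΛ1, ?_⟩
  apply Polynomial.map_injective (algebraMap ℝ ℂ) (algebraMap ℝ ℂ).injective
  rw [← heq, Polynomial.map_mul, Polynomial.map_mul, hQQC k w, Fintype.prod_sum_type,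
    Fintype.prod_prod_type, Fintype.prod_bool]
  simp only [Fintype.prod_bool, Polynomial.map_sub, Polynomial.map_X, Polynomial.map_C]
  show (∏ j, ((X - C (w j : ℂ)) * (X - C ((w j : ℂ))⁻¹))) * ((X - C (Λ : ℂ)) * (X - C ((Λ⁻¹ : ℝ) : ℂ)))
    = (X - C (Λ : ℂ)) * (X - C ((Λ⁻¹ : ℝ) : ℂ)) * ∏ j, ((X - C (w j : ℂ)) * (X - C ((w j : ℂ))⁻¹))
  ring

end Pool.Agent.PSA
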